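import Pool.Agent.W5h81.Mt.Model
import Pool.Agent.H119R2.Kp.PVE

set_option autoImplicit false

/-!
MP_257582_lc. Evaluation of the relation.
-/

namespace Pool.Agent.W5h81.Mt

open Finset
open Pool.Agent.H119R2.Kp (GP PV)
open Pool.Agent.TH669.KP (GR GR_adj rel_orb sgn bit bit_pos bit_neg sum_split sgn_sum sum_sgn)

variable (f m : ℕ)

theorem sgn_false {X : Type} [Fintype X] : sgn (fun _ : X => false) = 1 := by
  unfold sgn
  simp

/-- a sum of an integer function `h` of `χ` that is `0` at `χ = 0` and `1` elsewhere -/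
theorem sum_ne_zero {X : Type} [Fintype X] [DecidableEq X] [Nonempty X] (h : (X → Bool) → ℤ)
    (h0 : h (fun _ => false) = 0) (h1 : ∀ χ, χ ≠ (fun _ => false) → h χ = 1) :
    ∑ χ : X → Bool, sgn χ * h χ = -1 := by
  have h2 : ∀ χ : X → Bool, sgn χ * h χ =
      sgn χ - (if χ = (fun _ => false) then 1 else 0) := by
    intro χ
    by_cases hc : χ = fun _ => false
    · rw [if_pos hc, hc, h0, sgn_false]
      norm_num
    · rw [if_neg hc, h1 χ hc]
      ring
  rw [Finset.sum_congr rfl fun χ _ => h2 χ, Finset.sum_sub_distrib, sum_sgn]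
  simp

/-- the configuration of the pairs of fixed points and stars that consists of the star at `a` -/
def single (a : Fin f) : Jf f ⊕ Fin f → Bool := fun j => decide (j = .inr a)

theorem single_inj {a b : Fin f} (h : single f a = single f b) : a = b := by
  have := congrFun h (.inr a)
  simpa [single] using this

theorem single_ne (a : Fin f) : single f a ≠ fun _ => false := by
  intro h
  have := congrFun h (.inr a)
  simp [single] at this

theorem sgn_single (a : Fin f) : sgn (single f a) = -1 := by
  unfold sgn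
  rw [Finset.prod_eq_single (Sum.inr a)]
  · simp [single]
  · intro b _ hb
    simp [single, hb]
  · intro h
    exact absurd (Finset.mem_univ _) h

/-- the symmetric group of the fixed points acts -/
theorem PV_single {n q : ℕ} {Q : SimpleGraph (Fin n) → Prop} (hQ : GP n q Q) (a b : Fin f)
    (τ : Tx m → Bool) (h : PV Q (Vx f m) (Gg f m (Sum.elim (single f a) τ))) :
    PV Q (Vx f m) (Gg f m (Sum.elim (single f b) τ)) := by
  refine PV.mono hQ (Equiv.sumCongr (Equiv.swap a b) (Equiv.refl _)) ?_ h
  intro u v huv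
  rw [GR_adj] at huv ⊢
  obtain ⟨j, hj, hχ⟩ := huv
  rcases u with u | u <;> rcases v with v | v <;> simp only [orb] at hj
  · exfalso
    split_ifs at hj with h1
    simp only [Option.some.injEq] at hj
    subst hj
    simp [single] at hχ
  · simp only [Option.some.injEq] at hj
    subst hj
    simp only [Sum.elim_inl, single, Sum.inr.injEq, decide_eq_true_eq] at hχ
    subst hχ
    refine ⟨.inl (.inr b), ?_, by simp [single]⟩
    show orb f m (.inl (Equiv.swap u b u)) (.inr v) = _
    rw [Equiv.swap_apply_left]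
    rfl
  · simp only [Option.some.injEq] at hj
    subst hj
    simp only [Sum.elim_inl, single, Sum.inr.injEq, decide_eq_true_eq] at hχ
    subst hχ
    refine ⟨.inl (.inr b), ?_, by simp [single]⟩
    show orb f m (.inr u) (.inl (Equiv.swap v b v)) = _
    rw [Equiv.swap_apply_left]
    rfl
  · split_ifs at hj with h1
    simp only [Option.some.injEq] at hj
    subst hj
    refine ⟨.inr (dl m (u.1 - v.1)), ?_, by simpa using hχ⟩
    show orb f m (.inr u) (.inr v) = _
    simp [orb, h1]

/-- the evaluation -/
theorem eval [NeZero m] {n q : ℕ} {Q : SimpleGraph (Fin n) → Prop}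
    (hQ : GP n q Q) (hV : f + 2 * m = n) (hq : q < n.choose 2) (hf : 0 < f)
    (h0 : ∀ η, ¬ PV Q (Vx f m) (Gg f m (Sum.elim η (fun _ => false))))
    (h1 : ∀ η τ, η ≠ (fun _ => false) → (∀ a, η ≠ single f a) → τ ≠ (fun _ => false) →
      PV Q (Vx f m) (Gg f m (Sum.elim η τ)))
    (h2 : ∀ τ, ¬ PV Q (Vx f m) (Gg f m (Sum.elim (fun _ => false) τ))) :
    f = 1 ∧ ∃ τ, τ ≠ (fun _ => false) ∧ ∀ a,
      ¬ PV Q (Vx f m) (Gg f m (Sum.elim (single f a) τ)) := by
  classical
  have hr := relation f m hQ hV hq
  rw [sum_split] at hr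
  have : Nonempty (Tx m) := ⟨dl m 0⟩
  let a0 : Fin f := ⟨0, hf⟩
  have : Nonempty (Jf f ⊕ Fin f) := ⟨.inr a0⟩
  set X : ℤ := ∑ τ : Tx m → Bool, sgn τ * bit (PV Q (Vx f m) (Gg f m (Sum.elim (single f a0) τ)))
    with hX
  have h3 : ∀ η : Jf f ⊕ Fin f → Bool, ∑ τ : Tx m → Bool, sgn (Sum.elim η τ) *
      bit (PV Q (Vx f m) (Gg f m (Sum.elim η τ))) =
      - sgn η + (if η = (fun _ => false) then 1 else 0) -
        ∑ a : Fin f, (if η = single f a then (1 + X) else 0) := by
    intro η
    have h4 : ∀ τ : Tx m → Bool, sgn (Sum.elim η τ) *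
        bit (PV Q (Vx f m) (Gg f m (Sum.elim η τ))) =
        sgn η * (sgn τ * bit (PV Q (Vx f m) (Gg f m (Sum.elim η τ)))) := by
      intro τ
      rw [sgn_sum]
      simp only [Sum.elim_inl, Sum.elim_inr]
      ring
    rw [Finset.sum_congr rfl fun τ _ => h4 τ, ← Finset.mul_sum]
    by_cases hη : η = fun _ => false
    · have h5 : ∀ a : Fin f, ¬ η = single f a := fun a h => single_ne f a (h.symm.trans hη)
      rw [if_pos hη, Finset.sum_eq_zero (s := univ (α := Fin f)) fun a _ => if_neg (h5 a), hη,
        sgn_false]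
      rw [Finset.sum_eq_zero]
      · norm_num
      · intro τ _
        rw [bit_neg (h2 τ), mul_zero]
    · by_cases hs : ∃ a, η = single f a
      · obtain ⟨a, rfl⟩ := hs
        rw [if_neg hη, sgn_single]
        have h6 : ∑ b : Fin f, (if single f a = single f b then (1 + X) else 0) = 1 + X := by
          rw [Finset.sum_eq_single a]
          · rw [if_pos rfl]
          · intro b _ hb
            rw [if_neg]
            intro h
            exact hb (single_inj f h).symm
          · intro h
            exact absurd (Finset.mem_univ _) h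
        have h7 : ∑ τ : Tx m → Bool, sgn τ *
            bit (PV Q (Vx f m) (Gg f m (Sum.elim (single f a) τ))) = X := by
          rw [hX]
          refine Finset.sum_congr rfl fun τ _ => ?_
          congr 1
          exact Pool.Agent.TH669.KP.bit_congr
            ⟨PV_single f m hQ a a0 τ, PV_single f m hQ a0 a τ⟩
        rw [h6, h7]
        ring
      · push Not at hs
        rw [if_neg hη, Finset.sum_eq_zero (s := univ (α := Fin f)) fun a _ => if_neg (hs a)]
        rw [sum_ne_zero]
        · ring
        · exact bit_neg (h0 η)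
        · intro τ hτ
          exact bit_pos (h1 η τ hη hs hτ)
  rw [Finset.sum_congr rfl fun η _ => h3 η, Finset.sum_sub_distrib, Finset.sum_add_distrib,
    Finset.sum_neg_distrib, sum_sgn, Finset.sum_ite_eq', if_pos (Finset.mem_univ _),
    Finset.sum_comm] at hr
  have h8 : ∑ a : Fin f, ∑ η : Jf f ⊕ Fin f → Bool, (if η = single f a then (1 + X) else 0) =
      f * (1 + X) := by
    rw [Finset.sum_congr rfl fun a _ => Finset.sum_ite_eq' univ (single f a) fun _ => 1 + X]
    simp
  rw [h8] at hr
  have h9 : (f : ℤ) * (1 + X) = 1 := by linarith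
  have h10 : (f : ℤ) = 1 ∧ 1 + X = 1 := by
    have hf' : (0 : ℤ) < f := by exact_mod_cast hf
    have h11 : 0 < 1 + X := by
      by_contra hcon
      have : (f : ℤ) * (1 + X) ≤ 0 := mul_nonpos_of_nonneg_of_nonpos hf'.le (not_lt.1 hcon)
      omega
    have := Int.eq_one_or_neg_one_of_mul_eq_one h9
    rcases this with h12 | h12
    · refine ⟨h12, ?_⟩
      rw [h12, one_mul] at h9
      exact h9
    · omega
  refine ⟨by exact_mod_cast h10.1, ?_⟩
  by_contra hcon
  push Not at hcon
  have h12 : X = -1 := by
    rw [hX]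
    refine sum_ne_zero _ (bit_neg (h0 _)) fun τ hτ => bit_pos ?_
    obtain ⟨a, ha⟩ := hcon τ hτ
    exact PV_single f m hQ a a0 τ ha
  have := h10.2
  rw [h12] at this
  norm_num at this

end Pool.Agent.W5h81.Mt
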