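import Pool.Agent.W5h81.Mt.Eval

set_option autoImplicit false

/-!
MP_257582_lc. Disjoint edges in the invariant graphs.
-/

namespace Pool.Agent.W5h81.Mt

open Finset
open Pool.Agent.H119R2.Kp (GP PV pve_map_adj)
open Pool.Agent.TH669.KP (GR GR_adj rel_orb sgn bit bit_pos bit_neg sum_split sgn_sum sum_sgn)

/-- `k` vertex-disjoint edges -/
def DE {V : Type} (k : ℕ) (G : SimpleGraph V) : Prop :=
  ∃ u v : Fin k → V, Function.Injective (Sum.elim u v) ∧ ∀ i, G.Adj (u i) (v i)

/-- a triangle and `k` edges, vertex-disjoint -/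
def ET {V : Type} (k : ℕ) (G : SimpleGraph V) : Prop :=
  ∃ (t : Fin 3 → V) (u v : Fin k → V), Function.Injective (Sum.elim t (Sum.elim u v)) ∧
    (∀ i j, i ≠ j → G.Adj (t i) (t j)) ∧ ∀ i, G.Adj (u i) (v i)

theorem DE.of_index {V : Type} {k : ℕ} {G : SimpleGraph V} {ι : Type} [Fintype ι]
    (hι : Fintype.card ι = k) (u v : ι → V) (h : Function.Injective (Sum.elim u v))
    (hG : ∀ i, G.Adj (u i) (v i)) : DE k G := by
  let e : Fin k ≃ ι := (Fintype.equivFinOfCardEq hι).symm
  refine ⟨u ∘ e, v ∘ e, ?_, fun i => hG _⟩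
  have h1 : Sum.elim (u ∘ e) (v ∘ e) = Sum.elim u v ∘ (Equiv.sumCongr e e) := by
    funext x
    rcases x with x | x <;> rfl
  rw [h1]
  exact h.comp (Equiv.injective _)

theorem ET.of_index {V : Type} {k : ℕ} {G : SimpleGraph V} {ι : Type} [Fintype ι]
    (hι : Fintype.card ι = k) (t : Fin 3 → V) (u v : ι → V)
    (h : Function.Injective (Sum.elim t (Sum.elim u v)))
    (ht : ∀ i j, i ≠ j → G.Adj (t i) (t j))
    (hG : ∀ i, G.Adj (u i) (v i)) : ET k G := by
  let e : Fin k ≃ ι := (Fintype.equivFinOfCardEq hι).symm
  refine ⟨t, u ∘ e, v ∘ e, ?_, ht, fun i => hG _⟩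
  have h1 : Sum.elim t (Sum.elim (u ∘ e) (v ∘ e)) =
      Sum.elim t (Sum.elim u v) ∘ (Equiv.sumCongr (Equiv.refl _) (Equiv.sumCongr e e)) := by
    funext x
    rcases x with x | x | x <;> rfl
  rw [h1]
  exact h.comp (Equiv.injective _)

theorem DE.map {V W : Type} {k : ℕ} {G : SimpleGraph V} (e : V ≃ W) (h : DE k G) :
    DE k (G.map e.toEmbedding) := by
  obtain ⟨u, v, h1, h2⟩ := h
  refine ⟨e ∘ u, e ∘ v, ?_, fun i => ?_⟩
  · have h3 : Sum.elim (e ∘ u) (e ∘ v) = e ∘ Sum.elim u v := by
      funext x
      rcases x with x | x <;> rfl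
    rw [h3]
    exact e.injective.comp h1
  · rw [pve_map_adj]
    simpa using h2 i

theorem ET.map {V W : Type} {k : ℕ} {G : SimpleGraph V} (e : V ≃ W) (h : ET k G) :
    ET k (G.map e.toEmbedding) := by
  obtain ⟨t, u, v, h1, h2, h4⟩ := h
  refine ⟨e ∘ t, e ∘ u, e ∘ v, ?_, fun i j hij => ?_, fun i => ?_⟩
  · have h3 : Sum.elim (e ∘ t) (Sum.elim (e ∘ u) (e ∘ v)) = e ∘ Sum.elim t (Sum.elim u v) := by
      funext x
      rcases x with x | x | x <;> rfl
    rw [h3]
    exact e.injective.comp h1
  · rw [pve_map_adj]
    simpa using h2 i j hij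
  · rw [pve_map_adj]
    simpa using h4 i

variable (f m : ℕ)

/-- the vertices of the blocks -/
theorem adj_blocks [NeZero m] (η : Jf f ⊕ Fin f → Bool) (τ : Tx m → Bool) (d : ZMod m)
    (hd : τ (dl m d) = true) (i : ZMod m) :
    (Gg f m (Sum.elim η τ)).Adj (.inr (i, false)) (.inr (i - d, true)) := by
  rw [GR_adj]
  refine ⟨.inr (dl m d), ?_, by simpa using hd⟩
  simp [orb]

theorem adj_star (η : Jf f ⊕ Fin f → Bool) (τ : Tx m → Bool) (a : Fin f)
    (ha : η (.inr a) = true) (x : ZMod m × Bool) :
    (Gg f m (Sum.elim η τ)).Adj (.inl a) (.inr x) := by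
  rw [GR_adj]
  exact ⟨.inl (.inr a), rfl, by simpa using ha⟩

theorem exists_d {τ : Tx m → Bool} (h : τ ≠ fun _ => false) : ∃ d, τ (dl m d) = true := by
  by_contra hcon
  push Not at hcon
  apply h
  funext t
  obtain ⟨d, rfl⟩ := dl_surj m t
  simpa using hcon d

theorem good_DE [NeZero m] (η : Jf f ⊕ Fin f → Bool) (τ : Tx m → Bool)
    (h1 : η ≠ (fun _ => false)) (h2 : ∀ a, η ≠ single f a) (h3 : τ ≠ (fun _ => false)) :
    DE (m + 1) (Gg f m (Sum.elim η τ)) := by
  obtain ⟨d, hd⟩ := exists_d m h3
  have hcard : Fintype.card (Option (ZMod m)) = m + 1 := by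
    rw [Fintype.card_option, ZMod.card]
  by_cases h4 : ∃ e : Jf f, η (.inl e) = true
  · obtain ⟨⟨e, he⟩, h5⟩ := h4
    induction e using Sym2.ind with
    | _ a b =>
      have hab : ¬ a = b := by simpa using he
      refine DE.of_index hcard
        (fun o => match o with | none => .inl a | some i => .inr (i, false))
        (fun o => match o with | none => .inl b | some i => .inr (i - d, true)) ?_ ?_
      · rintro ((_ | x) | (_ | x)) ((_ | y) | (_ | y)) hxy <;> simp_all
      · rintro (_ | i)
        · rw [GR_adj]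
          refine ⟨.inl (.inl ⟨s(a, b), he⟩), ?_, by simpa using h5⟩
          simp [orb, hab]
        · exact adj_blocks f m η τ d hd i
  · push Not at h4
    obtain ⟨a, ha⟩ : ∃ a, η (.inr a) = true := by
      by_contra hcon
      push Not at hcon
      apply h1
      funext x
      rcases x with x | x
      · simpa using h4 x
      · simpa using hcon x
    obtain ⟨b, hba, hb⟩ : ∃ b, b ≠ a ∧ η (.inr b) = true := by
      by_contra hcon
      push Not at hcon
      apply h2 a
      funext x
      rcases x with x | x
      · simpa [single] using h4 x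
      · by_cases hx : x = a
        · subst hx
          simpa [single] using ha
        · simpa [single, hx] using hcon x hx
    refine DE.of_index hcard
      (fun o => match o with | none => .inr (-d, true) | some i => .inr (i, false))
      (fun o => match o with
        | none => .inl b
        | some i => if i = 0 then .inl a else .inr (i - d, true)) ?_ ?_
    · have key : ∀ y : ZMod m, y ≠ 0 → ¬ (-d = y - d) := by
        intro y hy h
        apply hy
        have : y = (y - d) + d := by ring
        rw [this, ← h]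
        ring
      rintro ((_ | x) | (_ | x)) ((_ | y) | (_ | y)) hxy
      · rfl
      · simp at hxy
      · simp at hxy
      · exfalso
        by_cases hy : y = 0
        · simp [hy] at hxy
        · simp [hy] at hxy
          exact key y hy hxy
      · simp at hxy
      · simpa using hxy
      · simp at hxy
      · exfalso
        by_cases hy : y = 0 <;> simp [hy] at hxy
      · simp at hxy
      · simp at hxy
      · rfl
      · exfalso
        by_cases hy : y = 0
        · simp [hy] at hxy
          exact hba hxy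
        · simp [hy] at hxy
      · exfalso
        by_cases hx : x = 0
        · simp [hx] at hxy
        · simp [hx] at hxy
      · exfalso
        by_cases hx : x = 0 <;> simp [hx] at hxy
      · exfalso
        by_cases hx : x = 0
        · simp [hx] at hxy
          exact hba hxy.symm
        · simp [hx] at hxy
      · by_cases hx : x = 0 <;> by_cases hy : y = 0
        · rw [hx, hy]
        · simp [hx, hy] at hxy
        · simp [hx, hy] at hxy
        · simpa [hx, hy] using hxy
    · rintro (_ | i)
      · exact (adj_star f m η τ b hb _).symm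
      · by_cases hi : i = 0
        · simp only [hi, if_true]
          exact (adj_star f m η τ a ha _).symm
        · simp only [hi, if_false]
          exact adj_blocks f m η τ d hd i

theorem good_ET [NeZero m] (a : Fin f) (τ : Tx m → Bool) (h3 : τ ≠ (fun _ => false)) :
    ET (m - 1) (Gg f m (Sum.elim (single f a) τ)) := by
  classical
  obtain ⟨d, hd⟩ := exists_d m h3
  have hcard : Fintype.card {i : ZMod m // i ≠ 0} = m - 1 := by
    rw [Fintype.card_subtype_compl, ZMod.card]
    simp
  have hs : single f a (.inr a) = true := by simp [single]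
  refine ET.of_index hcard ![.inl a, .inr (0, false), .inr (0 - d, true)]
    (fun i => .inr (i.1, false)) (fun i => .inr (i.1 - d, true)) ?_ ?_ ?_
  · have key : ∀ y : ZMod m, y ≠ 0 → ¬ (0 - d = y - d) := by
      intro y hy h
      apply hy
      have : y = (y - d) + d := by ring
      rw [this, ← h]
      ring
    rintro (x | x | x) (y | y | y) hxy
    · fin_cases x <;> fin_cases y <;> simp at hxy ⊢
    · exfalso
      obtain ⟨y, hy⟩ := y
      fin_cases x <;> simp at hxy
      exact hy hxy.symm
    · exfalso
      obtain ⟨y, hy⟩ := y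
      fin_cases x <;> simp at hxy
      exact key y hy (by simpa using hxy)
    · exfalso
      obtain ⟨x, hx⟩ := x
      fin_cases y <;> simp at hxy
      exact hx hxy
    · simp only [Sum.elim_inr, Sum.elim_inl, Sum.inr.injEq, Prod.mk.injEq, and_true] at hxy
      rw [Subtype.ext hxy]
    · simp at hxy
    · exfalso
      obtain ⟨x, hx⟩ := x
      fin_cases y <;> simp at hxy
      exact hx (by simpa using hxy)
    · simp at hxy
    · simp only [Sum.elim_inr, Sum.inr.injEq, Prod.mk.injEq, and_true, sub_left_inj] at hxy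
      rw [Subtype.ext hxy]
  · intro i j hij
    have h01 := adj_star f m (single f a) τ a hs (0, false)
    have h02 := adj_star f m (single f a) τ a hs (0 - d, true)
    have h12 := adj_blocks f m (single f a) τ d hd 0
    fin_cases i <;> fin_cases j <;> first
      | exact absurd rfl hij
      | exact h01
      | exact h02
      | exact h12
      | exact h01.symm
      | exact h02.symm
      | exact h12.symm
  · intro i
    exact adj_blocks f m (single f a) τ d hd i.1

/-- the main step: `3 k > n + 2` -/
theorem main {n k q : ℕ} {Q : SimpleGraph (Fin n) → Prop} (hQ : GP n q Q)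
    (hq : q < n.choose 2) (hk : n + 2 < 3 * k) (hkn : 2 * k ≤ n + 1)
    (hlow : ∀ G, DE k G → Q G) (hodd : 2 * k = n + 1 → ∀ G, ET (k - 2) G → Q G)
    (hup : ∀ G, Q G → 2 * k - 1 ≤ {v | ∃ w, G.Adj v w}.ncard ∧
      ∀ C : Finset (Fin n), (∀ v w, G.Adj v w → v ∈ C ∨ w ∈ C) → min k (n + 3 - 2 * k) ≤ C.card) :
    False := by
  classical
  obtain ⟨m, hm⟩ : ∃ m, m + 1 = k := ⟨k - 1, by omega⟩
  obtain ⟨f, hf⟩ : ∃ f, f + 2 * m = n := ⟨n - 2 * m, by omega⟩
  have hm0 : NeZero m := ⟨by omega⟩
  have hf0 : 0 < f := by omega
  have hcard : Fintype.card (Vx f m) = n := by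
    simp only [Fintype.card_sum, Fintype.card_fin, Fintype.card_prod, ZMod.card,
      Fintype.card_bool]
    omega
  let e0 : Vx f m ≃ Fin n := Fintype.equivFinOfCardEq hcard
  have h0 : ∀ η, ¬ PV Q (Vx f m) (Gg f m (Sum.elim η (fun _ => false))) := by
    rintro η ⟨e, he⟩
    have h := (hup _ he).2 (univ.image fun x : Fin f => e (.inl x)) ?_
    · have h2 : (univ.image fun x : Fin f => e (.inl x)).card ≤ f := by
        refine Finset.card_image_le.trans ?_
        simp
      have h3 := h.trans h2
      rcases Nat.le_total k (n + 3 - 2 * k) with h4 | h4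
      · rw [min_eq_left h4] at h3
        omega
      · rw [min_eq_right h4] at h3
        omega
    · intro v w hvw
      rw [pve_map_adj, GR_adj] at hvw
      obtain ⟨j, hj, hχ⟩ := hvw
      simp only [Finset.mem_image, Finset.mem_univ, true_and]
      rcases hv : e.symm v with x | x
      · exact Or.inl ⟨x, by rw [← hv, Equiv.apply_symm_apply]⟩
      · rcases hw : e.symm w with y | y
        · exact Or.inr ⟨y, by rw [← hw, Equiv.apply_symm_apply]⟩
        · exfalso
          rw [hv, hw] at hj
          simp only [orb] at hj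
          split_ifs at hj with h5
          simp only [Option.some.injEq] at hj
          subst hj
          simp at hχ
  have h1 : ∀ η τ, η ≠ (fun _ => false) → (∀ a, η ≠ single f a) → τ ≠ (fun _ => false) →
      PV Q (Vx f m) (Gg f m (Sum.elim η τ)) := by
    intro η τ h1 h2 h3
    refine ⟨e0, hlow _ (DE.map e0 ?_)⟩
    rw [← hm]
    exact good_DE f m η τ h1 h2 h3
  have h2 : ∀ τ, ¬ PV Q (Vx f m) (Gg f m (Sum.elim (fun _ => false) τ)) := by
    rintro τ ⟨e, he⟩
    have h := (hup _ he).1
    have h3 : {v | ∃ w, ((Gg f m (Sum.elim (fun _ => false) τ)).map e.toEmbedding).Adj v w} ⊆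
        ((univ.image fun x : ZMod m × Bool => e (.inr x) : Finset (Fin n)) : Set (Fin n)) := by
      rintro v ⟨w, hvw⟩
      rw [pve_map_adj, GR_adj] at hvw
      obtain ⟨j, hj, hχ⟩ := hvw
      simp only [Finset.coe_image, Finset.coe_univ, Set.image_univ, Set.mem_range]
      rcases hv : e.symm v with x | x
      · exfalso
        rcases hw : e.symm w with y | y
        · rw [hv, hw] at hj
          simp only [orb] at hj
          split_ifs at hj with h5
          simp only [Option.some.injEq] at hj
          subst hj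
          simp at hχ
        · rw [hv, hw] at hj
          simp only [orb, Option.some.injEq] at hj
          subst hj
          simp at hχ
      · exact ⟨x, by rw [← hv, Equiv.apply_symm_apply]⟩
    have h4 := Set.ncard_le_ncard h3 (Finset.finite_toSet _)
    rw [Set.ncard_coe_finset] at h4
    have h5 : (univ.image fun x : ZMod m × Bool => e (.inr x)).card ≤ m * 2 := by
      refine Finset.card_image_le.trans ?_
      simp [ZMod.card]
    omega
  obtain ⟨hf1, τ, hτ, h3⟩ := eval f m hQ hf hq hf0 h0 h1 h2
  subst hf1
  refine h3 0 ⟨e0, hodd (by omega) _ (ET.map e0 ?_)⟩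
  have h4 : k - 2 = m - 1 := by omega
  rw [h4]
  exact good_ET 1 m 0 τ hτ

end Pool.Agent.W5h81.Mt
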