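import Pool.Agent.TH669.KP.Orb

set_option autoImplicit false

/-!
MP_257582_lc. Vertices: a set of `f` fixed points and `m` blocks of size 2. The group is generated
by the exchange of the two vertices of one block and the rotation of the blocks.
-/

namespace Pool.Agent.W5h81.Mt

open Finset
open Pool.Agent.H119R2.Kp (GP PV)
open Pool.Agent.TH669.KP (GR GR_adj rel_orb sgn bit)

variable (f m : ℕ)

/-- the vertices -/
abbrev Vx : Type := Fin f ⊕ (ZMod m × Bool)

/-- the pairs of fixed points -/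
abbrev Jf : Type := {e : Sym2 (Fin f) // ¬ e.IsDiag}

/-- the differences of blocks, up to sign -/
abbrev Tx : Type := {e : Sym2 (ZMod m) // ∃ d : ZMod m, e = s(d, -d)}

/-- the orbits: pairs of fixed points, stars of fixed points, differences of blocks -/
abbrev Jx : Type := (Jf f ⊕ Fin f) ⊕ Tx m

/-- the label of a difference -/
def dl (d : ZMod m) : Tx m := ⟨s(d, -d), d, rfl⟩

theorem dl_neg (d : ZMod m) : dl m (-d) = dl m d := by
  unfold dl
  refine Subtype.ext ?_
  simp only [neg_neg]
  exact Sym2.eq_swap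

theorem dl_eq {d e : ZMod m} (h : dl m d = dl m e) : d = e ∨ d = -e := by
  unfold dl at h
  have h1 := congrArg Subtype.val h
  simp only [Sym2.eq_iff] at h1
  rcases h1 with h1 | h1
  · exact Or.inl h1.1
  · exact Or.inr h1.1

theorem dl_surj (t : Tx m) : ∃ d, t = dl m d := by
  obtain ⟨e, d, rfl⟩ := t
  exact ⟨d, rfl⟩

/-- the orbit of a pair -/
def orb : Vx f m → Vx f m → Option (Jx f m)
  | .inl u, .inl v => if h : u = v then none else some (.inl (.inl ⟨s(u, v), by simpa using h⟩))
  | .inl u, .inr _ => some (.inl (.inr u))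
  | .inr _, .inl v => some (.inl (.inr v))
  | .inr a, .inr b => if a = b then none else some (.inr (dl m (a.1 - b.1)))

theorem orb_symm (u v : Vx f m) : orb f m u v = orb f m v u := by
  rcases u with u | a <;> rcases v with v | b
  · by_cases h : u = v
    · subst h; rfl
    · have h' : ¬ v = u := fun h2 => h h2.symm
      simp only [orb, dif_neg h, dif_neg h', Option.some.injEq, Sum.inl.injEq, Subtype.mk.injEq]
      exact Sym2.eq_swap
  · rfl
  · rfl
  · by_cases h : a = b
    · subst h; rfl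
    · have h' : ¬ b = a := fun h2 => h h2.symm
      simp only [orb, if_neg h, if_neg h', Option.some.injEq, Sum.inr.injEq]
      rw [← dl_neg, neg_sub]

theorem orb_self (u : Vx f m) : orb f m u u = none := by
  rcases u with u | a <;> simp [orb]

theorem orb_ne_none (u v : Vx f m) (h : u ≠ v) : orb f m u v ≠ none := by
  rcases u with u | a <;> rcases v with v | b
  · have h' : ¬ u = v := fun h2 => h (by rw [h2])
    simp [orb, h']
  · simp [orb]
  · simp [orb]
  · have h' : ¬ a = b := fun h2 => h (by rw [h2])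
    simp [orb, h']

/-- exchange of the two vertices of the block `i` -/
def aG (i : ZMod m) : Equiv.Perm (Vx f m) where
  toFun
    | .inl u => .inl u
    | .inr a => .inr (a.1, if a.1 = i then !a.2 else a.2)
  invFun
    | .inl u => .inl u
    | .inr a => .inr (a.1, if a.1 = i then !a.2 else a.2)
  left_inv := by
    rintro (u | ⟨a, x⟩)
    · rfl
    · by_cases h : a = i <;> simp [h]
  right_inv := by
    rintro (u | ⟨a, x⟩)
    · rfl
    · by_cases h : a = i <;> simp [h]

/-- rotation of the blocks -/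
def cG : Equiv.Perm (Vx f m) where
  toFun
    | .inl u => .inl u
    | .inr a => .inr (a.1 + 1, a.2)
  invFun
    | .inl u => .inl u
    | .inr a => .inr (a.1 - 1, a.2)
  left_inv := by
    rintro (u | ⟨a, x⟩)
    · rfl
    · simp
  right_inv := by
    rintro (u | ⟨a, x⟩)
    · rfl
    · simp

theorem aG_comm (i j : ZMod m) : aG f m i * aG f m j = aG f m j * aG f m i := by
  ext u
  rcases u with u | ⟨a, x⟩
  · rfl
  · simp only [Equiv.Perm.mul_apply, aG, Equiv.coe_fn_mk]
    by_cases h : a = i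
    · by_cases h' : a = j
      · rw [← h, ← h']
      · have h2 : ¬ i = j := fun h3 => h' (h.trans h3)
        simp [h, h2]
    · by_cases h' : a = j
      · have h2 : ¬ j = i := fun h3 => h (h'.trans h3)
        simp [h', h2]
      · simp [h, h']

theorem aG_sq (i : ZMod m) : aG f m i ^ 2 = 1 := by
  rw [pow_two]
  ext u
  rcases u with u | ⟨a, x⟩
  · rfl
  · simp only [Equiv.Perm.mul_apply, aG, Equiv.coe_fn_mk, Equiv.Perm.one_apply]
    by_cases h : a = i <;> simp [h]

theorem cG_conj (i : ZMod m) : (cG f m)⁻¹ * aG f m i * cG f m = aG f m (i - 1) := by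
  rw [mul_assoc, inv_mul_eq_iff_eq_mul]
  ext u
  rcases u with u | ⟨a, x⟩
  · rfl
  · simp only [Equiv.Perm.mul_apply, aG, cG, Equiv.coe_fn_mk]
    by_cases h : a = i - 1
    · simp [h]
    · have h' : ¬ a + 1 = i := fun h2 => h (by rw [← h2]; ring)
      simp [h, h']

theorem orb_aG (i : ZMod m) (u v : Vx f m) :
    orb f m (aG f m i u) (aG f m i v) = orb f m u v := by
  rcases u with u | a <;> rcases v with v | b
  · rfl
  · rfl
  · rfl
  · have h1 : (aG f m i (Sum.inr a) : Vx f m) = aG f m i (Sum.inr b) ↔ a = b := by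
      rw [(aG f m i).apply_eq_iff_eq, Sum.inr.injEq]
    by_cases h : a = b
    · subst h
      rw [orb_self, orb_self]
    · have h2 : ¬ ((a.1, if a.1 = i then !a.2 else a.2) : ZMod m × Bool) =
          (b.1, if b.1 = i then !b.2 else b.2) := by
        intro h3
        apply h
        rw [← h1]
        exact congrArg Sum.inr h3
      show orb f m (Sum.inr (a.1, if a.1 = i then !a.2 else a.2))
        (Sum.inr (b.1, if b.1 = i then !b.2 else b.2)) = _
      simp only [orb, if_neg h, if_neg h2]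

theorem orb_cG (u v : Vx f m) :
    orb f m (cG f m u) (cG f m v) = orb f m u v := by
  rcases u with u | a <;> rcases v with v | b
  · rfl
  · rfl
  · rfl
  · by_cases h : a = b
    · subst h
      rw [orb_self, orb_self]
    · have h2 : ¬ ((a.1 + 1, a.2) : ZMod m × Bool) = (b.1 + 1, b.2) := by
        intro h3
        apply h
        have h4 := congrArg Prod.fst h3
        have h5 := congrArg Prod.snd h3
        simp only [add_left_inj] at h4
        exact Prod.ext h4 h5
      show orb f m (Sum.inr (a.1 + 1, a.2)) (Sum.inr (b.1 + 1, b.2)) = _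
      simp only [orb, if_neg h, if_neg h2, add_sub_add_right_eq_sub]

theorem orb_exists (j : Jx f m) : ∃ u v, orb f m u v = some j := by
  rcases j with (j | a) | t
  · obtain ⟨e, he⟩ := j
    induction e using Sym2.ind with
    | _ u v =>
      have h : ¬ u = v := by simpa using he
      exact ⟨.inl u, .inl v, by simp [orb, h]⟩
  · exact ⟨.inl a, .inr (0, false), rfl⟩
  · obtain ⟨d, rfl⟩ := dl_surj m t
    refine ⟨.inr (d, false), .inr (0, true), ?_⟩
    simp [orb]

/-- the group -/
abbrev Gr : Subgroup (Equiv.Perm (Vx f m)) :=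
  Subgroup.closure (insert (cG f m) (Set.range (aG f m)))

theorem cG_mem : cG f m ∈ Gr f m := Subgroup.subset_closure (Set.mem_insert _ _)

theorem aG_mem (i : ZMod m) : aG f m i ∈ Gr f m :=
  Subgroup.subset_closure (Set.mem_insert_of_mem _ (Set.mem_range_self i))

theorem cG_pow (k : ℕ) (u : Vx f m) : ((cG f m) ^ k) u =
    match u with
    | .inl v => .inl v
    | .inr a => .inr (a.1 + k, a.2) := by
  induction k generalizing u with
  | zero => rcases u with u | ⟨a, x⟩ <;> simp
  | succ k ih =>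
    rw [pow_succ, Equiv.Perm.mul_apply, ih]
    rcases u with u | ⟨a, x⟩
    · rfl
    · simp only [cG, Equiv.coe_fn_mk]
      congr 2
      push_cast
      ring

/-- rotation by an arbitrary amount -/
theorem rot_mem [NeZero m] (d : ZMod m) : ∃ g ∈ Gr f m, (∀ v : Fin f, g (.inl v) = .inl v) ∧
    ∀ a : ZMod m × Bool, g (.inr a) = .inr (a.1 + d, a.2) := by
  refine ⟨cG f m ^ d.val, Subgroup.pow_mem _ (cG_mem f m) _, fun v => ?_, fun a => ?_⟩
  · rw [cG_pow]
  · rw [cG_pow]
    simp

/-- the exchange of a block or the identity -/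
theorem fix_mem (i : ZMod m) (c : Bool) : ∃ g ∈ Gr f m, (∀ v : Fin f, g (.inl v) = .inl v) ∧
    (∀ z, g (.inr (i, z)) = .inr (i, xor z c)) ∧
    ∀ a : ZMod m × Bool, a.1 ≠ i → g (.inr a) = .inr a := by
  cases c
  · exact ⟨1, Subgroup.one_mem _, fun v => rfl, fun z => by simp, fun a _ => rfl⟩
  · exact ⟨aG f m i, aG_mem f m i, fun v => rfl, fun z => by simp [aG],
      fun a ha => by simp [aG, ha]⟩

theorem trans_one [NeZero m] (a b : ZMod m × Bool) : ∃ g ∈ Gr f m,
    (∀ v : Fin f, g (.inl v) = .inl v) ∧ g (.inr a) = .inr b := by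
  obtain ⟨g, hg, h1, h2⟩ := rot_mem f m (b.1 - a.1)
  obtain ⟨g', hg', h1', h2', _⟩ := fix_mem f m b.1 (xor a.2 b.2)
  refine ⟨g' * g, Subgroup.mul_mem _ hg' hg, fun v => ?_, ?_⟩
  · rw [Equiv.Perm.mul_apply, h1, h1']
  · rw [Equiv.Perm.mul_apply, h2]
    have h3 : (a.1 + (b.1 - a.1), a.2) = (b.1, a.2) := by
      congr 1
      ring
    rw [h3, h2']
    simp

theorem trans_two [NeZero m] (a b a' b' : ZMod m × Bool) (hab : a ≠ b) (hab' : a' ≠ b')
    (h : a.1 - b.1 = a'.1 - b'.1) : ∃ g ∈ Gr f m, g (.inr a) = .inr a' ∧ g (.inr b) = .inr b' := by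
  obtain ⟨g, hg, h1, h2⟩ := rot_mem f m (a'.1 - a.1)
  obtain ⟨g', hg', h1', h2', h3'⟩ := fix_mem f m a'.1 (xor a.2 a'.2)
  have e1 : (a.1 + (a'.1 - a.1), a.2) = (a'.1, a.2) := by
    congr 1
    ring
  have e2 : (b.1 + (a'.1 - a.1), b.2) = (b'.1, b.2) := by
    congr 1
    have : b.1 = a.1 - (a'.1 - b'.1) := by rw [← h]; ring
    rw [this]
    ring
  have hga : (g' * g) (.inr a) = .inr a' := by
    rw [Equiv.Perm.mul_apply, h2, e1, h2']
    simp
  have hgb : (g' * g) (.inr b) = g' (.inr (b'.1, b.2)) := by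
    rw [Equiv.Perm.mul_apply, h2, e2]
  by_cases hb : b'.1 = a'.1
  · have hx : a.1 = b.1 := by
      have : a.1 - b.1 = 0 := by rw [h, hb, sub_self]
      exact sub_eq_zero.1 this
    have hy : b.2 ≠ a.2 := fun h4 => hab (Prod.ext hx h4.symm)
    have hy' : a'.2 ≠ b'.2 := fun h6 => hab' (Prod.ext hb.symm h6)
    refine ⟨g' * g, Subgroup.mul_mem _ hg' hg, hga, ?_⟩
    rw [hgb, hb, h2']
    have h7 : xor b.2 (xor a.2 a'.2) = b'.2 := by
      revert hy hy'
      generalize b.2 = y
      generalize a.2 = x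
      generalize b'.2 = y'
      generalize a'.2 = x'
      cases y <;> cases x <;> cases y' <;> cases x' <;> simp
    rw [h7, ← hb]
  · obtain ⟨g3, hg3, _, h2'', h3''⟩ := fix_mem f m b'.1 (xor b.2 b'.2)
    refine ⟨g3 * (g' * g), Subgroup.mul_mem _ hg3 (Subgroup.mul_mem _ hg' hg), ?_, ?_⟩
    · rw [Equiv.Perm.mul_apply, hga, h3'' _ (fun h => hb h.symm)]
    · rw [Equiv.Perm.mul_apply, hgb, h3' (b'.1, b.2) hb, h2'']
      simp

theorem orb_trans [NeZero m] (j : Jx f m) (u v u' v' : Vx f m) (h : orb f m u v = some j)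
    (h' : orb f m u' v' = some j) :
    ∃ g ∈ Gr f m, (g u = u' ∧ g v = v') ∨ (g u = v' ∧ g v = u') := by
  rcases u with u | a <;> rcases v with v | b <;> rcases u' with u' | a' <;>
    rcases v' with v' | b' <;> simp only [orb] at h h'
  -- ff, ff
  · split_ifs at h with h1
    split_ifs at h' with h2
    rw [← h] at h'
    simp only [Option.some.injEq, Sum.inl.injEq, Subtype.mk.injEq, Sym2.eq_iff] at h'
    rcases h' with ⟨rfl, rfl⟩ | ⟨rfl, rfl⟩
    · exact ⟨1, Subgroup.one_mem _, Or.inl ⟨rfl, rfl⟩⟩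
    · exact ⟨1, Subgroup.one_mem _, Or.inr ⟨rfl, rfl⟩⟩
  · split_ifs at h with h1
    rw [← h] at h'
    simp at h'
  · split_ifs at h with h1
    rw [← h] at h'
    simp at h'
  · split_ifs at h with h1
    split_ifs at h' with h2
    rw [← h] at h'
    simp at h'
  -- fb, ff
  · split_ifs at h' with h1
    rw [← h] at h'
    simp at h'
  · rw [← h] at h'
    simp only [Option.some.injEq, Sum.inl.injEq, Sum.inr.injEq] at h'
    subst h'
    obtain ⟨g, hg, h1, h2⟩ := trans_one f m b b'
    exact ⟨g, hg, Or.inl ⟨h1 _, h2⟩⟩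
  · rw [← h] at h'
    simp only [Option.some.injEq, Sum.inl.injEq, Sum.inr.injEq] at h'
    subst h'
    obtain ⟨g, hg, h1, h2⟩ := trans_one f m b a'
    exact ⟨g, hg, Or.inr ⟨h1 _, h2⟩⟩
  · split_ifs at h' with h1
    rw [← h] at h'
    simp at h'
  -- bf
  · split_ifs at h' with h1
    rw [← h] at h'
    simp at h'
  · rw [← h] at h'
    simp only [Option.some.injEq, Sum.inl.injEq, Sum.inr.injEq] at h'
    subst h'
    obtain ⟨g, hg, h1, h2⟩ := trans_one f m a b'
    exact ⟨g, hg, Or.inr ⟨h2, h1 _⟩⟩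
  · rw [← h] at h'
    simp only [Option.some.injEq, Sum.inl.injEq, Sum.inr.injEq] at h'
    subst h'
    obtain ⟨g, hg, h1, h2⟩ := trans_one f m a a'
    exact ⟨g, hg, Or.inl ⟨h2, h1 _⟩⟩
  · split_ifs at h' with h1
    rw [← h] at h'
    simp at h'
  -- bb
  · split_ifs at h with h1
    split_ifs at h' with h2
    rw [← h] at h'
    simp at h'
  · split_ifs at h with h1
    rw [← h] at h'
    simp at h'
  · split_ifs at h with h1
    rw [← h] at h'
    simp at h'
  · split_ifs at h with h1
    split_ifs at h' with h2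
    rw [← h] at h'
    simp only [Option.some.injEq, Sum.inr.injEq] at h'
    rcases dl_eq m h' with h3 | h3
    · obtain ⟨g, hg, h4, h5⟩ := trans_two f m a b a' b' h1 h2 h3.symm
      exact ⟨g, hg, Or.inl ⟨h4, h5⟩⟩
    · have h6 : a.1 - b.1 = b'.1 - a'.1 := by
        rw [← neg_sub a'.1 b'.1, h3, neg_neg]
      obtain ⟨g, hg, h4, h5⟩ := trans_two f m a b b' a' h1 (fun h => h2 h.symm) h6
      exact ⟨g, hg, Or.inr ⟨h4, h5⟩⟩

noncomputable instance [NeZero m] : Fintype (Tx m) := Fintype.ofFinite _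

/-- the graph of a configuration -/
abbrev Gg (χ : Jx f m → Bool) : SimpleGraph (Vx f m) :=
  GR (orb f m) (orb_symm f m) (orb_self f m) χ

/-- the relation -/
theorem relation [NeZero m] [DecidableEq (Tx m)] {n q : ℕ} {Q : SimpleGraph (Fin n) → Prop}
    (hQ : GP n q Q) (hV : f + 2 * m = n) (hq : q < n.choose 2) :
    ∑ χ : Jx f m → Bool, sgn χ * bit (PV Q (Vx f m) (Gg f m χ)) = 0 := by
  have : Fact (Nat.Prime 2) := ⟨Nat.prime_two⟩
  refine rel_orb hQ (V := Vx f m) ?_ 2 (aG f m) (cG f m) (aG_comm f m) (aG_sq f m) ?_ (orb f m)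
    (orb_symm f m) (orb_self f m) (orb_ne_none f m) (orb_aG f m) (orb_cG f m) (orb_exists f m)
    (orb_trans f m) hq
  · simp only [Fintype.card_sum, Fintype.card_fin, Fintype.card_prod, ZMod.card,
      Fintype.card_bool]
    omega
  · intro i
    rw [cG_conj]
    exact Subgroup.subset_closure (Set.mem_range_self _)

end Pool.Agent.W5h81.Mt
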